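import Mathlib
import Pool.Agent.H97.GOEDefs
import Pool.Agent.H97.G16

/-!
Delocalisation of the optimizers of the `ℓ_p`-Grothendieck problem of a GOE matrix, for every
fixed `p > 2`: with probability tending to one every optimizer has all its coordinates bounded by
`(log n)^(16/(p-2)) * n^(-1/p)`.

Idea. Write the matrix through independent standard Gaussians `Z` and let `M(Z)` be the maximum of
the quadratic form over the ball. Since `M` is homogeneous, `E M(Z + s H) = sqrt(1+s^2) E M(Z)` for
an independent copy `H`, so the nonnegative quantity `E_H M(Z + s H) - M(Z)` is at most of order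
`s^2 E M` with high probability. This bounds the Gaussian width of every finite family of
near-optimal points, hence (Sudakov) their entropy. If an optimizer has a coordinate
`T n^(-1/p)`, then removing this coordinate gives a near-optimal point of the problem without this
coordinate, and that set of near-optimal points is independent of the removed row. A chaining bound
for the row, with the above entropy estimate, together with the first order condition bounds `T`.
-/

set_option autoImplicit false

open MeasureTheory ProbabilityTheory Filter Topology

namespace Pool.Agent.Results.MP_98bed0_pr.OptimizerDelocalization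

open Pool.Agent.H97.GOE

theorem result (p : ℝ) (hp : 2 < p) {Ω : ℕ → Type*} [∀ n, MeasurableSpace (Ω n)]
    (P : ∀ n, Measure (Ω n)) [∀ n, IsProbabilityMeasure (P n)]
    (G : ∀ n, Ω n → Matrix (Fin n) (Fin n) ℝ) (hG : ∀ n, IsGOE (P n) (G n)) :
    Tendsto (fun n : ℕ => P n {ω | ∃ x : Fin n → ℝ, IsOptimizer p (G n ω) x ∧
      ∃ i, Real.log n ^ (16 / (p - 2)) * (n : ℝ) ^ (-(1 / p)) < |x i|}) atTop (𝓝 0) :=
  Pool.Agent.H97.GP.delocalization hp P G hG

end Pool.Agent.Results.MP_98bed0_pr.OptimizerDelocalization
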